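import Mathlib
import Pool.Agent.Q89.PB3

/-!
# MP_a12d4e: quotients of spherical buildings by arithmetic Chevalley groups

`PGL₂ = Aut(M₂)` has rank one; the building of `PGL₂(K)`, like that of `SL₂(K)`, is the discrete
set of lines of `K²`.  For a number field `K` we compare its quotients by `PGL₂(𝓞 K)` and by
`SL₂(𝓞 K)`.
-/

open scoped NumberField LinearAlgebra.Projectivization MatrixGroups
open Pool.Agent.Q89.PB

namespace Pool.Agent.Results.MP_a12d4e_al.PGL2Quotient

theorem result :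
    (∀ (K : Type) [Field K] [NumberField K] (I : Ideal (𝓞 K)),
      ¬ I.IsPrincipal → (I * I).IsPrincipal →
        Finite (SLQuot K) ∧ Finite (PGLQuot K) ∧
          Nat.card (PGLQuot K) < Nat.card (SLQuot K) ∧ IsEmpty (PGLQuot K ≃ SLQuot K)) ∧
    (∃ (K : Type) (_ : Field K) (_ : NumberField K) (I : Ideal (𝓞 K)),
      ¬ I.IsPrincipal ∧ (I * I).IsPrincipal) := by
  constructor
  · intro K _ _ I hI hII
    -- every ideal of a Dedekind domain is generated by two elements
    have h2 : ∃ a b : 𝓞 K, I = Ideal.span {a, b} := by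
      have hne : I ≠ ⊥ := by
        rintro rfl
        exact hI ⟨0, by simp⟩
      obtain ⟨x, hxI, hx⟩ := Submodule.exists_mem_ne_zero_of_ne_bot hne
      obtain ⟨y, hy⟩ := IsDedekindDomain.exists_eq_span_pair hxI hx
      exact ⟨x, y, hy⟩
    obtain ⟨a, b, rfl⟩ := h2
    obtain ⟨δ, hδ⟩ := hII
    rw [Ideal.submodule_span_eq] at hδ
    have hδ0 : δ ≠ 0 := by
      rintro rfl
      have hz : Ideal.span {a, b} * Ideal.span {a, b} = (⊥ : Ideal (𝓞 K)) := by
        rw [hδ]; simp
      rcases Ideal.mul_eq_bot.1 hz with h | h <;>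
      · apply hI
        rw [h]
        exact ⟨0, by simp⟩
    obtain ⟨h1, h2, h3⟩ := card_lt a b δ hδ0 hδ hI
    refine ⟨h1, h2, h3, ⟨fun e => ?_⟩⟩
    have := Nat.card_congr e
    omega
  · refine ⟨K5, inferInstance, inferInstance, Ideal.span {(2 : 𝓞 K5), 1 + s5}, not_principal, ?_⟩
    rw [ideal_sq]
    exact ⟨2, rfl⟩

end Pool.Agent.Results.MP_a12d4e_al.PGL2Quotient
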